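import Mathlib

/-! Two-page book embeddings have neither a `K5` minor nor a `K3,3` minor
(a mod-2 van Kampen argument).  The spine order is only used as a tournament `lt`. -/

set_option autoImplicit false

namespace Pool.Agent.Lib.TwoPage

theorem k5_core (l : Fin 5 → Fin 5 → ZMod 2) (D : Fin 5 → Fin 5 → Fin 5 → ZMod 2)
    (anti : ∀ a b, a ≠ b → l a b + l b a = 1)
    (key : ∀ i j k t : Fin 5, (i ≠ j ∧ k ≠ t ∧ i ≠ k ∧ i ≠ t ∧ j ≠ k ∧ j ≠ t) →
      l i k + l j k + l i t + l j t + D i j k + D i j t + D k t i + D k t j = 0) : False := by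
  have h2 : (2 : ZMod 2) = 0 := by decide
  have h : (1 : ZMod 2) = 0 := by
    linear_combination key 0 1 2 3 (by decide) +
      key 0 1 2 4 (by decide) +
      key 0 1 3 4 (by decide) +
      key 0 2 1 3 (by decide) +
      key 0 2 1 4 (by decide) +
      key 0 2 3 4 (by decide) +
      key 0 3 1 2 (by decide) +
      key 0 3 1 4 (by decide) +
      key 0 3 2 4 (by decide) +
      key 0 4 1 2 (by decide) +
      key 0 4 1 3 (by decide) +
      key 0 4 2 3 (by decide) +
      key 1 2 3 4 (by decide) +
      key 1 3 2 4 (by decide) +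
      key 1 4 2 3 (by decide) +
      (-2) * anti 1 2 (by decide) +
      (-2) * anti 1 3 (by decide) +
      (-2) * anti 1 4 (by decide) +
      (-3) * anti 2 3 (by decide) +
      (-3) * anti 2 4 (by decide) +
      (-3) * anti 3 4 (by decide) -
      ((3) * l 0 1 +
        (3) * l 0 2 +
        (3) * l 0 3 +
        (3) * l 0 4 +
        (1) * l 1 2 +
        (1) * l 1 3 +
        (1) * l 1 4 +
        1 * D 0 1 2 +
        1 * D 0 1 3 +
        1 * D 2 3 0 +
        1 * D 2 3 1 +
        1 * D 0 1 4 +
        1 * D 2 4 0 +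
        1 * D 2 4 1 +
        1 * D 3 4 0 +
        1 * D 3 4 1 +
        1 * D 0 2 1 +
        1 * D 0 2 3 +
        1 * D 1 3 0 +
        1 * D 1 3 2 +
        1 * D 0 2 4 +
        1 * D 1 4 0 +
        1 * D 1 4 2 +
        1 * D 3 4 2 +
        1 * D 0 3 1 +
        1 * D 0 3 2 +
        1 * D 1 2 0 +
        1 * D 1 2 3 +
        1 * D 0 3 4 +
        1 * D 1 4 3 +
        1 * D 2 4 3 +
        1 * D 0 4 1 +
        1 * D 0 4 2 +
        1 * D 1 2 4 +
        1 * D 0 4 3 +
        1 * D 1 3 4 +
        1 * D 2 3 4 +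
        7) * h2
  exact absurd h (by decide)

theorem k33_core (l : Bool × Fin 3 → Bool × Fin 3 → ZMod 2)
    (D : Bool × Fin 3 → Bool × Fin 3 → Bool × Fin 3 → ZMod 2)
    (anti : ∀ a b, a ≠ b → l a b + l b a = 1)
    (key : ∀ i j k t : Bool × Fin 3,
      (i.1 = false ∧ j.1 = true ∧ k.1 = false ∧ t.1 = true ∧ i ≠ k ∧ j ≠ t) →
      l i k + l j k + l i t + l j t + D i j k + D i j t + D k t i + D k t j = 0) : False := by
  have h2 : (2 : ZMod 2) = 0 := by decide
  have h : (1 : ZMod 2) = 0 := by
    linear_combination key (false, 0) (true, 0) (false, 1) (true, 1) (by decide) +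
      key (false, 0) (true, 0) (false, 1) (true, 2) (by decide) +
      key (false, 0) (true, 0) (false, 2) (true, 1) (by decide) +
      key (false, 0) (true, 0) (false, 2) (true, 2) (by decide) +
      key (false, 0) (true, 1) (false, 1) (true, 0) (by decide) +
      key (false, 0) (true, 1) (false, 1) (true, 2) (by decide) +
      key (false, 0) (true, 1) (false, 2) (true, 0) (by decide) +
      key (false, 0) (true, 1) (false, 2) (true, 2) (by decide) +
      key (false, 0) (true, 2) (false, 1) (true, 0) (by decide) +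
      key (false, 0) (true, 2) (false, 1) (true, 1) (by decide) +
      key (false, 0) (true, 2) (false, 2) (true, 0) (by decide) +
      key (false, 0) (true, 2) (false, 2) (true, 1) (by decide) +
      key (false, 1) (true, 0) (false, 2) (true, 1) (by decide) +
      key (false, 1) (true, 0) (false, 2) (true, 2) (by decide) +
      key (false, 1) (true, 1) (false, 2) (true, 0) (by decide) +
      key (false, 1) (true, 1) (false, 2) (true, 2) (by decide) +
      key (false, 1) (true, 2) (false, 2) (true, 0) (by decide) +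
      key (false, 1) (true, 2) (false, 2) (true, 1) (by decide) +
      (-2) * anti (false, 1) (true, 0) (by decide) +
      (-2) * anti (false, 1) (true, 1) (by decide) +
      (-2) * anti (false, 1) (true, 2) (by decide) +
      (-4) * anti (false, 2) (true, 0) (by decide) +
      (-4) * anti (false, 2) (true, 1) (by decide) +
      (-4) * anti (false, 2) (true, 2) (by decide) +
      (-3) * anti (true, 0) (true, 1) (by decide) +
      (-3) * anti (true, 0) (true, 2) (by decide) +
      (-3) * anti (true, 1) (true, 2) (by decide) -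
      ((3) * l (false, 0) (false, 1) +
        (3) * l (false, 0) (false, 2) +
        (2) * l (false, 0) (true, 0) +
        (2) * l (false, 0) (true, 1) +
        (2) * l (false, 0) (true, 2) +
        (3) * l (false, 1) (false, 2) +
        (-2) * l (false, 2) (true, 0) +
        (-2) * l (false, 2) (true, 1) +
        (-2) * l (false, 2) (true, 2) +
        1 * D (false, 0) (true, 0) (false, 1) +
        1 * D (false, 0) (true, 0) (true, 1) +
        1 * D (false, 1) (true, 1) (false, 0) +
        1 * D (false, 1) (true, 1) (true, 0) +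
        1 * D (false, 0) (true, 0) (true, 2) +
        1 * D (false, 1) (true, 2) (false, 0) +
        1 * D (false, 1) (true, 2) (true, 0) +
        1 * D (false, 0) (true, 0) (false, 2) +
        1 * D (false, 2) (true, 1) (false, 0) +
        1 * D (false, 2) (true, 1) (true, 0) +
        1 * D (false, 2) (true, 2) (false, 0) +
        1 * D (false, 2) (true, 2) (true, 0) +
        1 * D (false, 0) (true, 1) (false, 1) +
        1 * D (false, 0) (true, 1) (true, 0) +
        1 * D (false, 1) (true, 0) (false, 0) +
        1 * D (false, 1) (true, 0) (true, 1) +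
        1 * D (false, 0) (true, 1) (true, 2) +
        1 * D (false, 1) (true, 2) (true, 1) +
        1 * D (false, 0) (true, 1) (false, 2) +
        1 * D (false, 2) (true, 0) (false, 0) +
        1 * D (false, 2) (true, 0) (true, 1) +
        1 * D (false, 2) (true, 2) (true, 1) +
        1 * D (false, 0) (true, 2) (false, 1) +
        1 * D (false, 0) (true, 2) (true, 0) +
        1 * D (false, 1) (true, 0) (true, 2) +
        1 * D (false, 0) (true, 2) (true, 1) +
        1 * D (false, 1) (true, 1) (true, 2) +
        1 * D (false, 0) (true, 2) (false, 2) +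
        1 * D (false, 2) (true, 0) (true, 2) +
        1 * D (false, 2) (true, 1) (true, 2) +
        1 * D (false, 1) (true, 0) (false, 2) +
        1 * D (false, 2) (true, 1) (false, 1) +
        1 * D (false, 2) (true, 2) (false, 1) +
        1 * D (false, 1) (true, 1) (false, 2) +
        1 * D (false, 2) (true, 0) (false, 1) +
        1 * D (false, 1) (true, 2) (false, 2) +
        13) * h2
  exact absurd h (by decide)

variable {V : Type} [Fintype V] [DecidableEq V]

/-- the point mass at `x` -/
def pt (x : V) : V → ZMod 2 := fun t => if t = x then 1 else 0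

/-- the bilinear form attached to the tournament `lt` -/
def beta (lt : V → V → ZMod 2) (f g : V → ZMod 2) : ZMod 2 := ∑ x, ∑ z, f x * g z * lt x z

theorem beta_add_left (lt : V → V → ZMod 2) (f f' g : V → ZMod 2) :
    beta lt (f + f') g = beta lt f g + beta lt f' g := by
  simp only [beta, Pi.add_apply, add_mul, Finset.sum_add_distrib]

theorem beta_add_right (lt : V → V → ZMod 2) (f g g' : V → ZMod 2) :
    beta lt f (g + g') = beta lt f g + beta lt f g' := by
  simp only [beta, Pi.add_apply, add_mul, mul_add, Finset.sum_add_distrib]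

theorem beta_zero_left (lt : V → V → ZMod 2) (g : V → ZMod 2) : beta lt 0 g = 0 := by
  simp [beta]

theorem beta_zero_right (lt : V → V → ZMod 2) (g : V → ZMod 2) : beta lt g 0 = 0 := by
  simp [beta]

theorem beta_pt_pt (lt : V → V → ZMod 2) (x z : V) : beta lt (pt x) (pt z) = lt x z := by
  simp [beta, pt]

theorem sum_pt (x : V) : ∑ t, pt x t = 1 := by simp [pt]

theorem beta_symm (lt : V → V → ZMod 2) (anti : ∀ a b, a ≠ b → lt a b + lt b a = 1)
    (f g : V → ZMod 2) (hfg : ∀ x, f x * g x = 0) (hf : ∑ x, f x = 0) :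
    beta lt f g = beta lt g f := by
  have h2 : (2 : ZMod 2) = 0 := by decide
  have h1 : beta lt f g + beta lt g f = (∑ x, f x) * ∑ z, g z := by
    unfold beta
    rw [Finset.sum_comm (f := fun x z => g x * f z * lt x z), Finset.sum_mul_sum,
      ← Finset.sum_add_distrib]
    refine Finset.sum_congr rfl fun x _ => ?_
    rw [← Finset.sum_add_distrib]
    refine Finset.sum_congr rfl fun z _ => ?_
    by_cases h : x = z
    · subst h
      linear_combination (lt x x + lt x x - 1) * hfg x
    · linear_combination (f x * g z) * anti x z h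
  rw [hf, zero_mul] at h1
  linear_combination h1 - (beta lt g f) * h2

/-- the chain of one edge drawn on page `p` -/
def ec (x y : V) (p : Bool) : Bool → V → ZMod 2 := fun q => if q = p then pt x + pt y else 0

/-- sums of edge chains of edges inside `S` -/
inductive Chain (G : SimpleGraph V) (page : V → V → Bool) (S : Set V) :
    (Bool → V → ZMod 2) → Prop
  | zero : Chain G page S 0
  | add (x y : V) (hx : x ∈ S) (hy : y ∈ S) (h : G.Adj x y) (c : Bool → V → ZMod 2)
      (hc : Chain G page S c) : Chain G page S (ec x y (page x y) + c)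

variable {G : SimpleGraph V} {page : V → V → Bool}

omit [Fintype V] in
theorem Chain.mono {S T : Set V} (hST : S ⊆ T) {c : Bool → V → ZMod 2}
    (hc : Chain G page S c) : Chain G page T c := by
  induction hc with
  | zero => exact Chain.zero
  | add x y hx hy h c _ ih => exact Chain.add x y (hST hx) (hST hy) h c ih

omit [Fintype V] in
theorem Chain.add_chain {S : Set V} {c d : Bool → V → ZMod 2}
    (hc : Chain G page S c) (hd : Chain G page S d) : Chain G page S (c + d) := by
  induction hc with
  | zero => simpa using hd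
  | add x y hx hy h c _ ih => rw [add_assoc]; exact Chain.add x y hx hy h _ ih

omit [Fintype V] in
theorem Chain.supp {S : Set V} {c : Bool → V → ZMod 2} (hc : Chain G page S c)
    (q : Bool) (t : V) (ht : t ∉ S) : c q t = 0 := by
  induction hc with
  | zero => rfl
  | add x y hx hy h c _ ih =>
    have h1 : t ≠ x := fun e => ht (e ▸ hx)
    have h2 : t ≠ y := fun e => ht (e ▸ hy)
    simp only [Pi.add_apply, ih, ec]
    split_ifs <;> simp [pt, h1, h2]

theorem Chain.total {S : Set V} {c : Bool → V → ZMod 2} (hc : Chain G page S c)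
    (q : Bool) : ∑ t, c q t = 0 := by
  induction hc with
  | zero => simp
  | add x y hx hy h c _ ih =>
    simp only [Pi.add_apply, Finset.sum_add_distrib, ih, ec]
    split_ifs
    · simp only [Pi.add_apply, Finset.sum_add_distrib, sum_pt]; decide
    · simp

/-- crossing parity of two chains -/
def cross (lt : V → V → ZMod 2) (c d : Bool → V → ZMod 2) : ZMod 2 :=
  beta lt (c true) (d true) + beta lt (c false) (d false)

theorem cross_add_left (lt : V → V → ZMod 2) (c c' d : Bool → V → ZMod 2) :
    cross lt (c + c') d = cross lt c d + cross lt c' d := by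
  simp only [cross, Pi.add_apply, beta_add_left]; ring

theorem cross_add_right (lt : V → V → ZMod 2) (c d d' : Bool → V → ZMod 2) :
    cross lt c (d + d') = cross lt c d + cross lt c d' := by
  simp only [cross, Pi.add_apply, beta_add_right]; ring

/-- the two-page condition: independent edges on the same page do not interleave -/
def NoCross (G : SimpleGraph V) (page : V → V → Bool) (lt : V → V → ZMod 2) : Prop :=
  ∀ x y z w, G.Adj x y → G.Adj z w → x ≠ z → x ≠ w → y ≠ z → y ≠ w → page x y = page z w →
    lt x z + lt y z + lt x w + lt y w = 0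

theorem cross_chain {lt : V → V → ZMod 2} (hN : NoCross G page lt) {S T : Set V}
    (hST : Disjoint S T) {c d : Bool → V → ZMod 2} (hc : Chain G page S c)
    (hd : Chain G page T d) : cross lt c d = 0 := by
  induction hc with
  | zero => simp [cross, beta_zero_left]
  | add x y hx hy h c _ ih =>
    rw [cross_add_left, ih, add_zero]
    clear ih
    induction hd with
    | zero => simp [cross, beta_zero_right]
    | add z w hz hw h' d _ ih' =>
      rw [cross_add_right, ih', add_zero]
      have ne : ∀ a b, a ∈ S → b ∈ T → a ≠ b := fun a b ha hb e =>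
        Set.disjoint_left.1 hST ha (e ▸ hb)
      have hk := hN x y z w h h' (ne _ _ hx hz) (ne _ _ hx hw) (ne _ _ hy hz) (ne _ _ hy hw)
      cases hp : page x y <;> cases hq : page z w <;>
        simp [cross, ec, beta_zero_left, beta_zero_right, beta_add_left, beta_add_right,
          beta_pt_pt] <;>
        · have := hk (by rw [hp, hq])
          linear_combination this

omit [Fintype V] in
theorem ec_bd (x y : V) (p : Bool) : ec x y p true + ec x y p false = pt x + pt y := by
  cases p <;> simp [ec]

omit [Fintype V] in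
theorem exists_chain_of_connected {S : Set V} (hS : (G.induce S).Connected) (x y : V)
    (hx : x ∈ S) (hy : y ∈ S) :
    ∃ c, Chain G page S c ∧ c true + c false = pt x + pt y := by
  obtain ⟨p⟩ := hS.preconnected ⟨x, hx⟩ ⟨y, hy⟩
  have : ∀ (a b : S) (_ : (G.induce S).Walk a b),
      ∃ c, Chain G page S c ∧ c true + c false = pt a.1 + pt b.1 := by
    intro a b q
    induction q with
    | nil =>
      refine ⟨0, Chain.zero, ?_⟩
      funext t
      simp only [Pi.add_apply, Pi.zero_apply, add_zero]
      exact (CharTwo.add_self_eq_zero _).symm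
    | @cons a b d h q ih =>
      obtain ⟨c, hc, hb⟩ := ih
      refine ⟨ec a.1 b.1 (page a.1 b.1) + c, Chain.add _ _ a.2 b.2 h c hc, ?_⟩
      have h1 := ec_bd a.1 b.1 (page a.1 b.1)
      funext t
      have h1 := congrFun h1 t
      have hb := congrFun hb t
      have h2 : (2 : ZMod 2) = 0 := by decide
      simp only [Pi.add_apply] at h1 hb ⊢
      linear_combination h1 + hb + pt b.1 t * h2
  exact this _ _ p

omit [Fintype V] in
theorem exists_chain_of_adj {S T : Set V} (hS : (G.induce S).Connected)
    (hT : (G.induce T).Connected) (x y : V) (hx : x ∈ S) (hy : y ∈ T)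
    (h : ∃ u ∈ S, ∃ v ∈ T, G.Adj u v) :
    ∃ c, Chain G page (S ∪ T) c ∧ c true + c false = pt x + pt y := by
  obtain ⟨u, hu, v, hv, huv⟩ := h
  obtain ⟨c, hc, hcb⟩ := exists_chain_of_connected (page := page) hS x u hx hu
  obtain ⟨d, hd, hdb⟩ := exists_chain_of_connected (page := page) hT v y hv hy
  refine ⟨ec u v (page u v) + (c + d), Chain.add u v (Or.inl hu) (Or.inr hv) huv _
    ((hc.mono Set.subset_union_left).add_chain (hd.mono Set.subset_union_right)), ?_⟩
  have h1 := ec_bd u v (page u v)
  funext t
  have h1 := congrFun h1 t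
  have hcb := congrFun hcb t
  have hdb := congrFun hdb t
  have h2 : (2 : ZMod 2) = 0 := by decide
  simp only [Pi.add_apply] at h1 hcb hdb ⊢
  linear_combination h1 + hcb + hdb + (pt u t + pt v t) * h2

theorem key_eq {lt : V → V → ZMod 2} (anti : ∀ a b, a ≠ b → lt a b + lt b a = 1)
    (hN : NoCross G page lt) {S T : Set V} (hST : Disjoint S T) (x y z w : V)
    (hx : x ∈ S) (hy : y ∈ S) {c d : Bool → V → ZMod 2}
    (hc : Chain G page S c) (hd : Chain G page T d)
    (hcb : c true + c false = pt x + pt y) (hdb : d true + d false = pt z + pt w) :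
    lt x z + lt y z + lt x w + lt y w + beta lt (c false) (pt z) + beta lt (c false) (pt w) +
      beta lt (d false) (pt x) + beta lt (d false) (pt y) = 0 := by
  have h2 : (2 : ZMod 2) = 0 := by decide
  have e1 : c true = c false + (pt x + pt y) := by
    funext t
    have := congrFun hcb t
    simp only [Pi.add_apply] at this ⊢
    linear_combination this - c false t * h2
  have e2 : d true = d false + (pt z + pt w) := by
    funext t
    have := congrFun hdb t
    simp only [Pi.add_apply] at this ⊢
    linear_combination this - d false t * h2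
  have h0 := cross_chain hN hST hc hd
  have hs : ∀ a, a ∈ S → beta lt (d false) (pt a) = beta lt (pt a) (d false) := by
    intro a ha
    refine beta_symm lt anti _ _ (fun t => ?_) (hd.total false)
    by_cases h : t = a
    · rw [hd.supp false t (fun ht => Set.disjoint_left.1 hST (h ▸ ha) ht), zero_mul]
    · simp [pt, h]
  rw [hs x hx, hs y hy]
  simp only [cross, e1, e2, beta_add_left, beta_add_right, beta_pt_pt] at h0
  linear_combination h0 - beta lt (c false) (d false) * h2

theorem no_K5_minor {lt : V → V → ZMod 2} (anti : ∀ a b, a ≠ b → lt a b + lt b a = 1)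
    (hN : NoCross G page lt) :
    ¬ ∃ f : Fin 5 → Set V,
      (∀ i j, i ≠ j → Disjoint (f i) (f j)) ∧
      (∀ i, (G.induce (f i)).Connected) ∧
      (∀ i j, i ≠ j → ∃ u ∈ f i, ∃ v ∈ f j, G.Adj u v) := by
  rintro ⟨f, hd, hc, ha⟩
  have hr : ∀ i, ∃ x, x ∈ f i := fun i => by
    obtain ⟨⟨x, hx⟩⟩ := (hc i).nonempty
    exact ⟨x, hx⟩
  choose r hr using hr
  have hΓ : ∀ i j, ∃ c : Bool → V → ZMod 2, i ≠ j →
      Chain G page (f i ∪ f j) c ∧ c true + c false = pt (r i) + pt (r j) := by
    intro i j
    by_cases h : i = j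
    · exact ⟨0, fun h' => absurd h h'⟩
    · obtain ⟨c, hc'⟩ := exists_chain_of_adj (page := page) (hc i) (hc j) _ _ (hr i) (hr j)
        (ha i j h)
      exact ⟨c, fun _ => hc'⟩
  choose Γ hΓ using hΓ
  refine k5_core (fun a b => lt (r a) (r b)) (fun i j k => beta lt (Γ i j false) (pt (r k)))
    (fun a b h => anti _ _ fun e => Set.disjoint_left.1 (hd a b h) (hr a) (e ▸ hr b)) ?_
  rintro i j k t ⟨h1, h2, h3, h4, h5, h6⟩
  refine key_eq anti hN (S := f i ∪ f j) (T := f k ∪ f t) ?_ _ _ _ _ (Or.inl (hr i))
    (Or.inr (hr j)) (hΓ i j h1).1 (hΓ k t h2).1 (hΓ i j h1).2 (hΓ k t h2).2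
  simp only [Set.disjoint_union_left, Set.disjoint_union_right]
  exact ⟨⟨hd _ _ h3, hd _ _ h5⟩, hd _ _ h4, hd _ _ h6⟩

theorem no_K33_minor {lt : V → V → ZMod 2} (anti : ∀ a b, a ≠ b → lt a b + lt b a = 1)
    (hN : NoCross G page lt) :
    ¬ ∃ f : Bool × Fin 3 → Set V,
      (∀ i j, i ≠ j → Disjoint (f i) (f j)) ∧
      (∀ i, (G.induce (f i)).Connected) ∧
      (∀ a b : Fin 3, ∃ u ∈ f (false, a), ∃ v ∈ f (true, b), G.Adj u v) := by
  rintro ⟨f, hd, hc, ha⟩
  have hr : ∀ i, ∃ x, x ∈ f i := fun i => by
    obtain ⟨⟨x, hx⟩⟩ := (hc i).nonempty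
    exact ⟨x, hx⟩
  choose r hr using hr
  have hΓ : ∀ i j : Bool × Fin 3, ∃ c : Bool → V → ZMod 2, i.1 = false → j.1 = true →
      Chain G page (f i ∪ f j) c ∧ c true + c false = pt (r i) + pt (r j) := by
    rintro ⟨i1, i2⟩ ⟨j1, j2⟩
    by_cases h : i1 = false ∧ j1 = true
    · obtain ⟨rfl, rfl⟩ := h
      obtain ⟨c, hc'⟩ := exists_chain_of_adj (page := page) (hc _) (hc _) _ _
        (hr (false, i2)) (hr (true, j2)) (ha i2 j2)
      exact ⟨c, fun _ _ => hc'⟩
    · exact ⟨0, fun h1 h2 => absurd ⟨h1, h2⟩ h⟩
  choose Γ hΓ using hΓ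
  refine k33_core (fun a b => lt (r a) (r b)) (fun i j k => beta lt (Γ i j false) (pt (r k)))
    (fun a b h => anti _ _ fun e => Set.disjoint_left.1 (hd a b h) (hr a) (e ▸ hr b)) ?_
  rintro i j k t ⟨h1, h2, h3, h4, h5, h6⟩
  have n1 : i ≠ t := fun e => by rw [e, h4] at h1; exact absurd h1 (by decide)
  have n2 : j ≠ k := fun e => by rw [e, h3] at h2; exact absurd h2 (by decide)
  refine key_eq anti hN (S := f i ∪ f j) (T := f k ∪ f t) ?_ _ _ _ _ (Or.inl (hr i))
    (Or.inr (hr j)) (hΓ i j h1 h2).1 (hΓ k t h3 h4).1 (hΓ i j h1 h2).2 (hΓ k t h3 h4).2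
  simp only [Set.disjoint_union_left, Set.disjoint_union_right]
  exact ⟨⟨hd _ _ h5, hd _ _ n2⟩, hd _ _ n1, hd _ _ h6⟩

end Pool.Agent.Lib.TwoPage
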